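import Mathlib

/-!
# Common real zeros of systems of odd degree (algebraic half of Borsuk-Ulam)

For `F i = X i ^ d i + t * G i` with `deg G i ≤ d i` the map `x ^ c ↦ x ^ (c % d) * F ^ (c / d)`
is bijective for all but countably many `t`, so `ℝ[x] / (F)` has dimension `∏ d i`.
-/

open MvPolynomial

namespace Pool.Agent.H47.Borsuk

variable {n : ℕ}

/-- The twisted monomial `x ^ (c % d) * F ^ (c / d)`. -/
noncomputable def tw {R : Type*} [CommRing R] (d : Fin n → ℕ)
    (F : Fin n → MvPolynomial (Fin n) R) (c : Fin n →₀ ℕ) : MvPolynomial (Fin n) R :=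
  ∏ i, (X i ^ (c i % d i) * F i ^ (c i / d i))

lemma tw_map {R S : Type*} [CommRing R] [CommRing S] (φ : R →+* S) (d : Fin n → ℕ)
    (F : Fin n → MvPolynomial (Fin n) R) (c : Fin n →₀ ℕ) :
    MvPolynomial.map φ (tw d F c) = tw d (fun i => MvPolynomial.map φ (F i)) c := by
  simp [tw, map_prod]

lemma tw_pow {R : Type*} [CommRing R] (d : Fin n → ℕ) (c : Fin n →₀ ℕ) :
    tw d (fun i => (X i : MvPolynomial (Fin n) R) ^ d i) c = monomial c 1 := by
  rw [monomial_eq, C_1, one_mul, tw, Finsupp.prod_fintype]
  · refine Finset.prod_congr rfl fun i _ => ?_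
    rw [← pow_mul, ← pow_add, Nat.mod_add_div]
  · intro i; simp

lemma tw_totalDegree {R : Type*} [CommRing R] (d : Fin n → ℕ)
    (F : Fin n → MvPolynomial (Fin n) R) (hF : ∀ i, (F i).totalDegree ≤ d i)
    (c : Fin n →₀ ℕ) : (tw d F c).totalDegree ≤ ∑ i, c i := by
  refine (totalDegree_finsetProd _ _).trans (Finset.sum_le_sum fun i _ => ?_)
  refine (totalDegree_mul _ _).trans ?_
  have h1 : ((X i : MvPolynomial (Fin n) R) ^ (c i % d i)).totalDegree ≤ c i % d i := by
    refine (totalDegree_pow _ _).trans ?_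
    have : (X i : MvPolynomial (Fin n) R).totalDegree ≤ 1 := by
      rcases subsingleton_or_nontrivial R with h | h
      · rw [Subsingleton.elim (X i : MvPolynomial (Fin n) R) 0]; simp
      · rw [totalDegree_X]
    exact (Nat.mul_le_mul_left _ this).trans (by rw [mul_one])
  have h2 : (F i ^ (c i / d i)).totalDegree ≤ (c i / d i) * d i :=
    (totalDegree_pow _ _).trans (Nat.mul_le_mul_left _ (hF i))
  calc _ ≤ c i % d i + (c i / d i) * d i := add_le_add h1 h2
    _ = c i := by rw [mul_comm]; exact Nat.mod_add_div _ _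

/-- The twisting map. -/
noncomputable def Phi {K : Type*} [Field K] (d : Fin n → ℕ)
    (F : Fin n → MvPolynomial (Fin n) K) :
    MvPolynomial (Fin n) K →ₗ[K] MvPolynomial (Fin n) K :=
  (basisMonomials (Fin n) K).constr K (tw d F)

section

variable {K : Type*} [Field K] (d : Fin n → ℕ) (F : Fin n → MvPolynomial (Fin n) K)

lemma Phi_monomial (c : Fin n →₀ ℕ) (a : K) : Phi d F (monomial c a) = a • tw d F c := by
  have h : monomial c a = a • (basisMonomials (Fin n) K) c := by
    rw [coe_basisMonomials, smul_monomial]; simp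
  rw [h, map_smul, Phi, Module.Basis.constr_basis]

lemma Phi_eq_sum (p : MvPolynomial (Fin n) K) :
    Phi d F p = ∑ c ∈ p.support, coeff c p • tw d F c := by
  conv_lhs => rw [p.as_sum]
  rw [map_sum]
  exact Finset.sum_congr rfl fun c _ => Phi_monomial d F c _

lemma sum_le_totalDegree {p : MvPolynomial (Fin n) K} {c : Fin n →₀ ℕ} (hc : c ∈ p.support) :
    ∑ i, c i ≤ p.totalDegree := by
  have := le_totalDegree hc
  rwa [Finsupp.sum_fintype _ _ (fun _ => rfl)] at this

lemma Phi_totalDegree (hF : ∀ i, (F i).totalDegree ≤ d i) (p : MvPolynomial (Fin n) K) :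
    (Phi d F p).totalDegree ≤ p.totalDegree := by
  rw [Phi_eq_sum]
  refine totalDegree_finsetSum_le fun c hc => ?_
  refine (totalDegree_smul_le _ _).trans ?_
  exact (tw_totalDegree d F hF c).trans (sum_le_totalDegree hc)

lemma Phi_surjective_of_injective (hF : ∀ i, (F i).totalDegree ≤ d i)
    (h : Function.Injective (Phi d F)) : Function.Surjective (Phi d F) := by
  intro q
  let V := restrictTotalDegree (Fin n) K q.totalDegree
  have hV : ∀ p ∈ V, Phi d F p ∈ V := by
    intro p hp
    rw [mem_restrictTotalDegree] at hp ⊢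
    exact (Phi_totalDegree d F hF p).trans hp
  let Φ' : V →ₗ[K] V := (Phi d F).restrict hV
  have hinj : Function.Injective Φ' := by
    intro x y hxy
    apply Subtype.ext
    apply h
    exact congrArg Subtype.val hxy
  have hsurj := LinearMap.injective_iff_surjective.1 hinj
  obtain ⟨p, hp⟩ := hsurj ⟨q, (mem_restrictTotalDegree _ _ _).2 le_rfl⟩
  exact ⟨p.1, congrArg Subtype.val hp⟩

end

/-- The finite index set of exponents of total degree at most `N`. -/
abbrev Ex (n N : ℕ) : Type := {c : Fin n →₀ ℕ // ∑ i, c i ≤ N}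

instance (n N : ℕ) : Finite (Ex n N) := by
  have h : {c : Fin n →₀ ℕ | ∀ i, c i ≤ N}.Finite :=
    (Set.Finite.pi' fun _ ↦ Set.finite_le_nat _).preimage DFunLike.coe_injective.injOn
  have h2 : {c : Fin n →₀ ℕ | ∑ i, c i ≤ N}.Finite := h.subset fun c hc i =>
    (Finset.single_le_sum (f := fun i => c i) (fun _ _ => Nat.zero_le _)
      (Finset.mem_univ i)).trans hc
  exact h2.to_subtype

noncomputable instance (n N : ℕ) : Fintype (Ex n N) := Fintype.ofFinite _

/-- The matrix of the twisting map in degrees at most `N`. -/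
noncomputable def mat {R : Type*} [CommRing R] (d : Fin n → ℕ)
    (F : Fin n → MvPolynomial (Fin n) R) (N : ℕ) : Matrix (Ex n N) (Ex n N) R :=
  fun c' c => coeff c'.1 (tw d F c.1)

lemma mat_map {R S : Type*} [CommRing R] [CommRing S] (φ : R →+* S) (d : Fin n → ℕ)
    (F : Fin n → MvPolynomial (Fin n) R) (N : ℕ) :
    (mat d F N).map φ = mat d (fun i => MvPolynomial.map φ (F i)) N := by
  ext c' c
  rw [Matrix.map_apply, mat, mat, ← tw_map, coeff_map]

lemma mat_pow {R : Type*} [CommRing R] (d : Fin n → ℕ) (N : ℕ) [DecidableEq (Ex n N)] :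
    mat d (fun i => (X i : MvPolynomial (Fin n) R) ^ d i) N = 1 := by
  classical
  ext c' c
  rw [mat, tw_pow, coeff_monomial, Matrix.one_apply]
  by_cases h : c' = c
  · subst h; simp
  · rw [if_neg h, if_neg fun h' => h (Subtype.ext h'.symm)]

lemma Phi_injective {K : Type*} [Field K] (d : Fin n → ℕ)
    (F : Fin n → MvPolynomial (Fin n) K)
    (h : ∀ (N : ℕ) (_ : DecidableEq (Ex n N)), (mat d F N).det ≠ 0) :
    Function.Injective (Phi d F) := by
  classical
  rw [injective_iff_map_eq_zero]
  intro p hp
  let N := p.totalDegree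
  let v : Ex n N → K := fun c => coeff c.1 p
  have hv : Matrix.mulVec (mat d F N) v = 0 := by
    funext c'
    have h1 := congrArg (coeff c'.1) hp
    rw [Phi_eq_sum, coeff_sum, coeff_zero] at h1
    rw [Matrix.mulVec, dotProduct, Pi.zero_apply, ← h1]
    symm
    refine Finset.sum_bij_ne_zero (fun c hc _ => ⟨c, sum_le_totalDegree hc⟩) ?_ ?_ ?_ ?_
    · intro c _ _; exact Finset.mem_univ _
    · intro c _ _ c2 _ _ e; exact congrArg Subtype.val e
    · intro c _ hne
      refine ⟨c.1, ?_, ?_, rfl⟩
      · rw [mem_support_iff]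
        intro h0
        exact hne (by change _ * coeff c.1 p = 0; rw [h0, mul_zero])
      · rw [coeff_smul, smul_eq_mul, mul_comm]
        exact hne
    · intro c _ _
      rw [coeff_smul, smul_eq_mul, mul_comm]
      rfl
  have hv0 := Matrix.eq_zero_of_mulVec_eq_zero (h N inferInstance) hv
  ext c
  rw [coeff_zero]
  by_contra hne
  have hc : c ∈ p.support := mem_support_iff.2 hne
  exact hne (congrFun hv0 ⟨c, sum_le_totalDegree hc⟩)

/-- The deformed system. -/
noncomputable def defo (d : Fin n → ℕ) (G : Fin n → MvPolynomial (Fin n) ℝ) (t : ℝ) (i : Fin n) :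
    MvPolynomial (Fin n) ℝ := X i ^ d i + C t * G i

lemma defo_totalDegree (d : Fin n → ℕ) (G : Fin n → MvPolynomial (Fin n) ℝ)
    (hG : ∀ i, (G i).totalDegree ≤ d i) (t : ℝ) (i : Fin n) :
    (defo d G t i).totalDegree ≤ d i := by
  refine (totalDegree_add _ _).trans (max_le ?_ ?_)
  · refine (totalDegree_pow _ _).trans ?_
    rw [totalDegree_X, mul_one]
  · refine (totalDegree_mul _ _).trans ?_
    rw [totalDegree_C, zero_add]
    exact hG i

/-- For all but countably many `t` the twisting map of the deformed system is bijective. -/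
theorem countable_bad (d : Fin n → ℕ) (G : Fin n → MvPolynomial (Fin n) ℝ)
    (hG : ∀ i, (G i).totalDegree ≤ d i) :
    {t : ℝ | ¬ Function.Bijective (Phi d (defo d G t))}.Countable := by
  classical
  -- the generic system
  let Fg : Fin n → MvPolynomial (Fin n) (Polynomial ℝ) := fun i =>
    X i ^ d i + C Polynomial.X * MvPolynomial.map Polynomial.C (G i)
  have hFg : ∀ (t : ℝ) (i : Fin n), MvPolynomial.map (Polynomial.evalRingHom t) (Fg i)
      = defo d G t i := by
    intro t i
    simp only [Fg, defo, map_add, map_mul, map_pow, MvPolynomial.map_X, MvPolynomial.map_C]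
    rw [MvPolynomial.map_map]
    have : (Polynomial.evalRingHom t).comp Polynomial.C = RingHom.id ℝ := by
      ext; simp
    rw [this, MvPolynomial.map_id]
    simp
  let D : ℕ → Polynomial ℝ := fun N => (mat d Fg N).det
  have hD : ∀ (t : ℝ) (N : ℕ), (D N).eval t = (mat d (defo d G t) N).det := by
    intro t N
    have h1 : (D N).eval t = Polynomial.evalRingHom t (D N) := rfl
    rw [h1, RingHom.map_det]
    congr 1
    refine (mat_map (Polynomial.evalRingHom t) d Fg N).trans ?_
    congr 1
    funext i
    exact hFg t i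
  have hD0 : ∀ N, D N ≠ 0 := by
    intro N h0
    have h1 := hD 0 N
    rw [h0, Polynomial.eval_zero] at h1
    have h2 : defo d G 0 = fun i => X i ^ d i := by
      funext i; simp [defo]
    rw [h2, mat_pow, Matrix.det_one] at h1
    exact zero_ne_one h1
  have hsub : {t : ℝ | ¬ Function.Bijective (Phi d (defo d G t))}
      ⊆ ⋃ N, {t : ℝ | (D N).IsRoot t} := by
    intro t ht
    by_contra hne
    simp only [Set.mem_iUnion, Set.mem_ofPred_eq, not_exists, Polynomial.IsRoot.def] at hne
    apply ht
    have hinj : Function.Injective (Phi d (defo d G t)) := by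
      apply Phi_injective
      intro N inst
      have h1 := hne N
      rw [hD] at h1
      intro h2
      apply h1
      rw [← h2]
      congr!
    exact ⟨hinj, Phi_surjective_of_injective d _ (defo_totalDegree d G hG t) hinj⟩
  exact (Set.countable_iUnion fun N => (Polynomial.finite_setOfPred_isRoot (hD0 N)).countable).mono
    hsub

end Pool.Agent.H47.Borsuk
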