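import Pool.Agent.H47.Borsuk.Forms

/-!
# Borsuk-Ulam theorem and the odd map theorem
-/

open MvPolynomial

namespace Pool.Agent.H47.Borsuk

variable {n : ℕ}

/-- The odd form of degree `D` associated with a polynomial. -/
noncomputable def oddForm {m : ℕ} (p : MvPolynomial (Fin m) ℝ) (D : ℕ) :
    MvPolynomial (Fin m) ℝ :=
  ∑ k ∈ (Finset.range (D + 1)).filter Odd,
    homogeneousComponent k p * (∑ i, X i ^ 2) ^ ((D - k) / 2)

lemma oddForm_homog {m : ℕ} (p : MvPolynomial (Fin m) ℝ) (D : ℕ) (hD : Odd D) :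
    (oddForm p D).IsHomogeneous D := by
  refine IsHomogeneous.sum _ _ _ fun k hk => ?_
  rw [Finset.mem_filter, Finset.mem_range] at hk
  have h1 : ((∑ i, X i ^ 2 : MvPolynomial (Fin m) ℝ)).IsHomogeneous 2 :=
    IsHomogeneous.sum _ _ _ fun i _ => by
      have := (isHomogeneous_X ℝ i).pow 2
      simpa using this
  have h2 := (homogeneousComponent_isHomogeneous k p).mul (h1.pow ((D - k) / 2))
  have h3 : k + 2 * ((D - k) / 2) = D := by
    obtain ⟨a, ha⟩ := hD
    obtain ⟨b, hb⟩ := hk.2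
    omega
  rwa [h3] at h2

lemma eval_neg_of_homog {m : ℕ} (f : MvPolynomial (Fin m) ℝ) {k : ℕ}
    (hf : f.IsHomogeneous k) (x : Fin m → ℝ) : eval (-x) f = (-1) ^ k * eval x f := by
  have h := eval_smul_of_homog f hf (-1) x
  rwa [neg_one_smul] at h

lemma eval_oddForm {m : ℕ} (p : MvPolynomial (Fin m) ℝ) (D : ℕ) (hp : p.totalDegree ≤ D)
    (x : Fin m → ℝ) (hx : ∑ i, x i ^ 2 = 1) :
    eval x (oddForm p D) = (eval x p - eval (-x) p) / 2 := by
  have hsum : ∀ y : Fin m → ℝ, eval y p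
      = ∑ k ∈ Finset.range (D + 1), eval y (homogeneousComponent k p) := by
    intro y
    conv_lhs => rw [← sum_homogeneousComponent p]
    rw [map_sum]
    refine Finset.sum_subset (Finset.range_mono (by omega)) fun k _ hk => ?_
    rw [Finset.mem_range, not_lt] at hk
    rw [homogeneousComponent_eq_zero _ _ (by omega), map_zero]
  rw [hsum x, hsum (-x), ← Finset.sum_sub_distrib, Finset.sum_div, oddForm, map_sum,
    Finset.sum_filter]
  refine Finset.sum_congr rfl fun k _ => ?_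
  rw [eval_neg_of_homog _ (homogeneousComponent_isHomogeneous k p)]
  by_cases hk : Odd k
  · rw [if_pos hk, hk.neg_one_pow]
    have h1 : eval x (∑ i, X i ^ 2 : MvPolynomial (Fin m) ℝ) = 1 := by
      rw [map_sum]
      simpa using hx
    rw [map_mul, map_pow, h1, one_pow]
    ring
  · rw [if_neg hk, (Nat.not_odd_iff_even.1 hk).neg_one_pow]
    ring

/-- The Euclidean unit sphere in coordinates. -/
def Sph (m : ℕ) : Set (Fin m → ℝ) := {x | ∑ i, x i ^ 2 = 1}

lemma isCompact_Sph (m : ℕ) : IsCompact (Sph m) := by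
  refine Metric.isCompact_of_isClosed_isBounded ?_ ?_
  · exact isClosed_eq (by fun_prop) continuous_const
  · refine Metric.isBounded_closedBall (x := (0 : Fin m → ℝ)) (r := 1) |>.subset fun x hx => ?_
    rw [mem_closedBall_zero_iff, pi_norm_le_iff_of_nonneg zero_le_one]
    intro i
    have h1 : x i ^ 2 ≤ 1 := by
      rw [← (show ∑ i, x i ^ 2 = 1 from hx)]
      exact Finset.single_le_sum (f := fun i => x i ^ 2) (fun j _ => sq_nonneg _)
        (Finset.mem_univ i)
    rw [Real.norm_eq_abs]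
    exact abs_le_one_iff_mul_self_le_one.2 (by nlinarith)

instance (m : ℕ) : CompactSpace (Sph m) := isCompact_iff_compactSpace.1 (isCompact_Sph m)

lemma neg_mem_Sph {m : ℕ} {x : Fin m → ℝ} (hx : x ∈ Sph m) : -x ∈ Sph m := by
  change ∑ i, (-x) i ^ 2 = 1
  rw [← (show ∑ i, x i ^ 2 = 1 from hx)]
  simp

/-- Coordinate functions. -/
def coo (m : ℕ) (i : Fin m) : C(Sph m, ℝ) :=
  ⟨fun x => x.1 i, (continuous_apply i).comp continuous_subtype_val⟩

lemma aeval_coo {m : ℕ} (p : MvPolynomial (Fin m) ℝ) (x : Sph m) :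
    (aeval (coo m) p) x = eval x.1 p := by
  induction p using MvPolynomial.induction_on with
  | C a => simp
  | add p q hp hq => rw [map_add, map_add, ← hp, ← hq]; rfl
  | mul_X p i hp => rw [map_mul, map_mul, ← hp, aeval_X, eval_X]; rfl

/-- Polynomial approximation on the sphere. -/
lemma exists_poly {m : ℕ} (g : (Fin m → ℝ) → ℝ) (hg : ContinuousOn g (Sph m)) {ε : ℝ}
    (hε : 0 < ε) : ∃ p : MvPolynomial (Fin m) ℝ, ∀ x ∈ Sph m, |eval x p - g x| < ε := by
  let A : Subalgebra ℝ C(Sph m, ℝ) := (aeval (coo m) : MvPolynomial (Fin m) ℝ →ₐ[ℝ] _).range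
  have hA : A.SeparatesPoints := by
    intro x y hxy
    have : ∃ i, x.1 i ≠ y.1 i := by
      by_contra hne
      push Not at hne
      exact hxy (Subtype.ext (funext hne))
    obtain ⟨i, hi⟩ := this
    refine ⟨coo m i, ⟨coo m i, ⟨X i, ?_⟩, rfl⟩, hi⟩
    exact aeval_X _ _
  let G : C(Sph m, ℝ) := ⟨fun x => g x.1, continuousOn_iff_continuous_domRestrict.1 hg⟩
  obtain ⟨⟨_, p, rfl⟩, hp⟩ :=
    ContinuousMap.exists_mem_subalgebra_near_continuousMap_of_separatesPoints A hA G ε hε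
  refine ⟨p, fun x hx => ?_⟩
  have h1 := (ContinuousMap.norm_lt_iff _ hε).1 hp ⟨x, hx⟩
  rw [Real.norm_eq_abs] at h1
  have h2 : (aeval (coo m) p) ⟨x, hx⟩ = eval x p := aeval_coo p ⟨x, hx⟩
  rw [← h2]
  exact h1

/-- **Borsuk-Ulam theorem**, coordinate form. -/
theorem borsuk_ulam_coord (g : (Fin (n + 1) → ℝ) → (Fin n → ℝ))
    (hg : ContinuousOn g (Sph (n + 1))) (hodd : ∀ x ∈ Sph (n + 1), g (-x) = - g x) :
    ∃ x ∈ Sph (n + 1), g x = 0 := by
  classical
  have hgi : ∀ i, ContinuousOn (fun x => g x i) (Sph (n + 1)) := fun i =>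
    (continuous_apply i).comp_continuousOn hg
  have hne : (Sph (n + 1)).Nonempty := by
    refine ⟨Pi.single 0 1, ?_⟩
    change ∑ i, (Pi.single 0 1 : Fin (n + 1) → ℝ) i ^ 2 = 1
    rw [Finset.sum_eq_single 0]
    · simp
    · intro b _ hb; rw [Pi.single_eq_of_ne hb]; simp
    · intro h; exact absurd (Finset.mem_univ _) h
  obtain ⟨z, hz, hmin⟩ := (isCompact_Sph (n + 1)).exists_isMinOn hne hg.norm
  refine ⟨z, hz, ?_⟩
  by_contra hz0
  have hpos : 0 < ‖g z‖ := norm_pos_iff.2 hz0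
  choose p hp using fun i => exists_poly (fun x => g x i) (hgi i) (half_pos hpos)
  -- a common odd degree is not needed
  let D : Fin n → ℕ := fun i => 2 * (p i).totalDegree + 1
  obtain ⟨x, hx0, hx⟩ := exists_zero_of_odd_forms (fun i => oddForm (p i) (D i)) D
    (fun i => ⟨_, rfl⟩) (fun i => oddForm_homog _ _ ⟨_, rfl⟩)
  -- normalise
  let s : ℝ := ∑ i, x i ^ 2
  have hs : 0 < s := by
    have h0 : 0 ≤ s := Finset.sum_nonneg fun i _ => sq_nonneg _
    refine lt_of_le_of_ne h0 fun h => hx0 ?_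
    have := (Finset.sum_eq_zero_iff_of_nonneg fun i _ => sq_nonneg (x i)).1 h.symm
    funext i
    exact pow_eq_zero_iff (two_ne_zero) |>.1 (this i (Finset.mem_univ i))
  let y : Fin (n + 1) → ℝ := (Real.sqrt s)⁻¹ • x
  have hy : y ∈ Sph (n + 1) := by
    change ∑ i, ((Real.sqrt s)⁻¹ • x) i ^ 2 = 1
    simp only [Pi.smul_apply, smul_eq_mul, mul_pow, inv_pow]
    rw [← Finset.mul_sum, Real.sq_sqrt hs.le]
    exact inv_mul_cancel₀ hs.ne'
  have hyf : ∀ i, eval y (oddForm (p i) (D i)) = 0 := fun i => by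
    rw [eval_smul_of_homog _ (oddForm_homog _ _ ⟨_, rfl⟩), hx i, mul_zero]
  have hgy : ‖g y‖ < ‖g z‖ := by
    rw [pi_norm_lt_iff hpos]
    intro i
    have h1 := hyf i
    rw [eval_oddForm (p i) (D i) (by change _ ≤ 2 * _ + 1; omega) y hy] at h1
    have h2 := hp i y hy
    have h3 := hp i (-y) (neg_mem_Sph hy)
    have h4 : g (-y) i = - g y i := by rw [hodd y hy]; rfl
    rw [h4] at h3
    rw [abs_lt] at h2 h3
    rw [Real.norm_eq_abs, abs_lt]
    constructor <;> linarith
  exact absurd (hmin hy) (not_le.2 hgy)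

section normed

variable {E F : Type*} [NormedAddCommGroup E] [NormedSpace ℝ E] [FiniteDimensional ℝ E]
  [NormedAddCommGroup F] [NormedSpace ℝ F] [FiniteDimensional ℝ F]

/-- **Borsuk-Ulam theorem**: an odd continuous map from the unit sphere of `E` to a space of
smaller dimension has a zero. -/
theorem borsuk_ulam_odd (hdim : Module.finrank ℝ F < Module.finrank ℝ E) (g : E → F)
    (hg : ContinuousOn g (Metric.sphere (0 : E) 1))
    (hodd : ∀ x ∈ Metric.sphere (0 : E) 1, g (-x) = - g x) :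
    ∃ x ∈ Metric.sphere (0 : E) 1, g x = 0 := by
  classical
  obtain ⟨k, hk⟩ : ∃ k, k = Module.finrank ℝ F := ⟨_, rfl⟩
  -- coordinates on `F`
  let ψ : F ≃L[ℝ] (Fin k → ℝ) := ContinuousLinearEquiv.ofFinrankEq (by
    rw [Module.finrank_fin_fun, hk])
  -- an injective linear map into `E`
  obtain ⟨ι, hι⟩ : ∃ ι : (Fin (k + 1) → ℝ) →ₗ[ℝ] E, Function.Injective ι := by
    let b := Module.finBasis ℝ E
    have hle : k + 1 ≤ Module.finrank ℝ E := by omega
    have hv : LinearIndependent ℝ (b ∘ Fin.castLE hle) :=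
      b.linearIndependent.comp _ (Fin.castLE_injective hle)
    exact ⟨_, linearIndependent_iff_injective_fintypeLinearCombination.1 hv⟩
  have hιc : Continuous ι := LinearMap.continuous_of_finiteDimensional ι
  have hι0 : ∀ x ∈ Sph (k + 1), ι x ≠ 0 := by
    intro x hx h
    have hx0 : x = 0 := hι (by rw [h, map_zero])
    have : ∑ i, x i ^ 2 = 1 := hx
    rw [hx0] at this
    simp at this
  have hsph : ∀ x ∈ Sph (k + 1), ‖ι x‖⁻¹ • ι x ∈ Metric.sphere (0 : E) 1 := by
    intro x hx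
    rw [mem_sphere_zero_iff_norm, norm_smul, norm_inv, norm_norm,
      inv_mul_cancel₀ (norm_ne_zero_iff.2 (hι0 x hx))]
  obtain ⟨x, hx, hx0⟩ := borsuk_ulam_coord (fun x => ψ (g (‖ι x‖⁻¹ • ι x))) (by
      refine ψ.continuous.comp_continuousOn ?_
      refine hg.comp ?_ hsph
      refine ContinuousOn.smul ?_ hιc.continuousOn
      exact hιc.norm.continuousOn.inv₀ fun x hx => norm_ne_zero_iff.2 (hι0 x hx)) (by
      intro x hx
      have h1 : ‖ι (-x)‖⁻¹ • ι (-x) = - (‖ι x‖⁻¹ • ι x) := by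
        rw [map_neg, norm_neg, smul_neg]
      change ψ (g (‖ι (-x)‖⁻¹ • ι (-x))) = - ψ (g (‖ι x‖⁻¹ • ι x))
      rw [h1, hodd _ (hsph x hx), map_neg])
  refine ⟨_, hsph x hx, ?_⟩
  exact ψ.injective (by rw [map_zero]; exact hx0)

/-- **Odd map theorem**: a continuous map from the closed unit ball of `E` to a space of at most
the same dimension which is odd on the unit sphere has a zero. -/
theorem odd_map_ball (hdim : Module.finrank ℝ F ≤ Module.finrank ℝ E) (f : E → F)
    (hf : ContinuousOn f (Metric.closedBall (0 : E) 1))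
    (hodd : ∀ x ∈ Metric.sphere (0 : E) 1, f (-x) = - f x) :
    ∃ x ∈ Metric.closedBall (0 : E) 1, f x = 0 := by
  classical
  let g : E × ℝ → F := fun y => if 0 ≤ y.2 then f y.1 else - f (-y.1)
  have hball : ∀ y ∈ Metric.sphere (0 : E × ℝ) 1, y.1 ∈ Metric.closedBall (0 : E) 1 := by
    intro y hy
    rw [mem_sphere_zero_iff_norm] at hy
    rw [mem_closedBall_zero_iff, ← hy]
    exact norm_fst_le y
  have hball' : ∀ y ∈ Metric.sphere (0 : E × ℝ) 1, -y.1 ∈ Metric.closedBall (0 : E) 1 := by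
    intro y hy
    have := hball y hy
    rwa [mem_closedBall_zero_iff, norm_neg, ← mem_closedBall_zero_iff]
  have hsph : ∀ y ∈ Metric.sphere (0 : E × ℝ) 1, y.2 = 0 → f (-y.1) = - f y.1 := by
    intro y hy h0
    apply hodd
    rw [mem_sphere_zero_iff_norm] at hy ⊢
    rw [← hy, Prod.norm_def, h0, norm_zero, max_eq_left (norm_nonneg _)]
  have hg1 : ContinuousOn g (Metric.sphere (0 : E × ℝ) 1 ∩ {y | 0 ≤ y.2}) := by
    have h1 : ContinuousOn (fun y : E × ℝ => f y.1)
        (Metric.sphere (0 : E × ℝ) 1 ∩ {y | 0 ≤ y.2}) :=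
      hf.comp continuous_fst.continuousOn fun y hy => hball y hy.1
    exact h1.congr fun y hy => if_pos hy.2
  have hg2 : ContinuousOn g (Metric.sphere (0 : E × ℝ) 1 ∩ {y | y.2 ≤ 0}) := by
    have h1 : ContinuousOn (fun y : E × ℝ => - f (-y.1))
        (Metric.sphere (0 : E × ℝ) 1 ∩ {y | y.2 ≤ 0}) :=
      (hf.comp continuous_fst.neg.continuousOn fun y hy => hball' y hy.1).neg
    refine h1.congr fun y hy => ?_
    by_cases h0 : 0 ≤ y.2
    · have h00 : y.2 = 0 := le_antisymm hy.2 h0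
      change (if 0 ≤ y.2 then f y.1 else - f (-y.1)) = - f (-y.1)
      rw [if_pos h0, hsph y hy.1 h00, neg_neg]
    · exact if_neg h0
  have hg : ContinuousOn g (Metric.sphere (0 : E × ℝ) 1) := by
    have h1 := hg1.union_of_isClosed hg2
      (Metric.isClosed_sphere.inter (isClosed_le continuous_const continuous_snd))
      (Metric.isClosed_sphere.inter (isClosed_le continuous_snd continuous_const))
    refine h1.mono fun y hy => ?_
    rcases le_total 0 y.2 with h | h
    · exact Or.inl ⟨hy, h⟩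
    · exact Or.inr ⟨hy, h⟩
  obtain ⟨y, hy, hy0⟩ := borsuk_ulam_odd (E := E × ℝ) (F := F) (by
      rw [Module.finrank_prod, Module.finrank_self]; omega) g hg (by
      intro y hy
      change (if 0 ≤ -y.2 then f (-y.1) else - f (- -y.1)) = - (if 0 ≤ y.2 then f y.1 else - f (-y.1))
      rw [neg_neg]
      rcases lt_trichotomy y.2 0 with h | h | h
      · rw [if_pos (by linarith), if_neg (by linarith), neg_neg]
      · rw [if_pos (by linarith), if_pos (by linarith)]
        exact hsph y hy h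
      · rw [if_neg (by linarith), if_pos h.le])
  by_cases h : 0 ≤ y.2
  · exact ⟨y.1, hball y hy, by rw [← hy0]; exact (if_pos h).symm⟩
  · refine ⟨-y.1, hball' y hy, ?_⟩
    have : g y = - f (-y.1) := if_neg h
    rw [hy0] at this
    exact (neg_eq_zero.1 this.symm)

/-- Odd map theorem on the ball of radius `r`. -/
theorem odd_map_closedBall (hdim : Module.finrank ℝ F ≤ Module.finrank ℝ E) (r : ℝ) (hr : 0 < r)
    (f : E → F) (hf : ContinuousOn f (Metric.closedBall (0 : E) r))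
    (hodd : ∀ x ∈ Metric.sphere (0 : E) r, f (-x) = - f x) :
    ∃ x ∈ Metric.closedBall (0 : E) r, f x = 0 := by
  have hmem : ∀ x ∈ Metric.closedBall (0 : E) 1, r • x ∈ Metric.closedBall (0 : E) r := by
    intro x hx
    rw [mem_closedBall_zero_iff] at hx ⊢
    rw [norm_smul, Real.norm_eq_abs, abs_of_pos hr]
    nlinarith
  obtain ⟨x, hx, hx0⟩ := odd_map_ball hdim (fun x => f (r • x))
    (hf.comp (continuous_const_smul r).continuousOn hmem) (by
      intro x hx
      rw [mem_sphere_zero_iff_norm] at hx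
      rw [smul_neg]
      apply hodd
      rw [mem_sphere_zero_iff_norm, norm_smul, Real.norm_eq_abs, abs_of_pos hr, hx, mul_one])
  exact ⟨r • x, hmem x hx, hx0⟩

end normed

/-- Odd map theorem in Euclidean space. -/
theorem odd_map_euclidean (n : ℕ)
    (f : EuclideanSpace ℝ (Fin n) → EuclideanSpace ℝ (Fin n))
    (hf : ContinuousOn f (Metric.closedBall 0 1))
    (hodd : ∀ x, ‖x‖ = 1 → f (-x) = - f x) : ∃ x, ‖x‖ ≤ 1 ∧ f x = 0 := by
  obtain ⟨x, hx, hx0⟩ := odd_map_ball le_rfl f hf fun x hx =>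
    hodd x (mem_sphere_zero_iff_norm.1 hx)
  exact ⟨x, mem_closedBall_zero_iff.1 hx, hx0⟩

/-- Borsuk-Ulam theorem in Euclidean space. -/
theorem borsuk_ulam_euclidean (n : ℕ)
    (g : EuclideanSpace ℝ (Fin (n + 1)) → EuclideanSpace ℝ (Fin n))
    (hg : ContinuousOn g (Metric.sphere 0 1)) :
    ∃ x, ‖x‖ = 1 ∧ g (-x) = g x := by
  obtain ⟨x, hx, hx0⟩ := borsuk_ulam_odd (E := EuclideanSpace ℝ (Fin (n + 1)))
    (F := EuclideanSpace ℝ (Fin n)) (by simp) (fun x => g x - g (-x))
    (hg.sub (hg.comp continuous_neg.continuousOn fun x hx => by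
      rw [mem_sphere_zero_iff_norm] at hx ⊢
      rw [norm_neg, hx])) (fun x _ => by
      change g (-x) - g (- -x) = - (g x - g (-x))
      rw [neg_neg]
      abel)
  exact ⟨x, mem_sphere_zero_iff_norm.1 hx, (sub_eq_zero.1 hx0).symm⟩

end Pool.Agent.H47.Borsuk
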