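import Mathlib

namespace Pool.Agent.H47.Borsuk

variable {A : Type*} [CommRing A] [Algebra ℝ A] [Module.Finite ℝ A]

omit [Module.Finite ℝ A] in
lemma finrank_quot_maximal [Module.Finite ℝ A] (hA : IsEmpty (A →ₐ[ℝ] ℝ)) (m : Ideal A)
    (hm : m.IsMaximal) : Module.finrank ℝ (A ⧸ m) = 2 := by
  let _ : Field (A ⧸ m) := Ideal.Quotient.field m
  rcases Real.nonempty_algEquiv_or (A ⧸ m) with h | h
  · obtain ⟨e⟩ := h
    exact hA.elim (e.toAlgHom.comp (Ideal.Quotient.mkₐ ℝ m))
  · obtain ⟨e⟩ := h
    rw [e.toLinearEquiv.finrank_eq, Complex.finrank_real_complex]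

/-- A finite-dimensional commutative real algebra without real points has only ideals of even
dimension. -/
theorem even_finrank (hA : IsEmpty (A →ₐ[ℝ] ℝ)) (k : ℕ) :
    ∀ I : Ideal A, Module.finrank ℝ I = k → Even k := by
  have hN : IsNoetherianRing A := isNoetherian_of_tower ℝ inferInstance
  induction k using Nat.strong_induction_on with
  | _ k ih =>
  intro I hk
  by_cases hI : I = ⊥
  · subst hI
    have : Module.finrank ℝ (⊥ : Ideal A) = 0 := by
      have h1 : Subsingleton (⊥ : Ideal A) := inferInstance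
      exact Module.finrank_zero_of_subsingleton
    rw [← hk, this]
    exact Even.zero
  -- a maximal subideal
  obtain ⟨J, hJI, hJmax⟩ := wellFounded_gt.has_min {J : Ideal A | J < I} ⟨⊥, bot_lt_iff_ne_bot.2 hI⟩
  have hcov : J ⋖ I := ⟨hJI, fun K hJK hKI => hJmax K hKI hJK⟩
  have hsimple := (covBy_iff_quot_is_simple hcov.le).1 hcov
  obtain ⟨m, hm, ⟨e⟩⟩ := isSimpleModule_iff_quot_maximal.1 hsimple
  let J' : Submodule A I := Submodule.comap (Submodule.subtype I) J
  have h1 : Module.finrank ℝ (I ⧸ J') = 2 := by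
    rw [← finrank_quot_maximal hA m hm]
    exact (e.restrictScalars ℝ).finrank_eq
  have h2 : Module.finrank ℝ (I ⧸ J'.restrictScalars ℝ) = 2 := by
    rw [← h1]
    exact (Submodule.Quotient.restrictScalarsEquiv ℝ J').finrank_eq
  have h3 : Module.finrank ℝ (J'.restrictScalars ℝ) = Module.finrank ℝ J := by
    exact ((Submodule.comapSubtypeEquivOfLe hcov.le).restrictScalars ℝ).finrank_eq
  have h4 := Submodule.finrank_quotient_add_finrank (J'.restrictScalars ℝ)
  rw [h2, h3, hk] at h4
  obtain ⟨r, hr⟩ := ih (Module.finrank ℝ J) (by omega) J rfl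
  exact ⟨r + 1, by omega⟩

/-- A commutative real algebra of odd dimension has a real point. -/
theorem exists_algHom (h : Odd (Module.finrank ℝ A)) : Nonempty (A →ₐ[ℝ] ℝ) := by
  by_contra hne
  have h1 := even_finrank (not_nonempty_iff.1 hne) _ (⊤ : Ideal A) rfl
  have h2 : Module.finrank ℝ (⊤ : Ideal A) = Module.finrank ℝ A :=
    (Submodule.topEquiv (R := A) (M := A)).restrictScalars ℝ |>.finrank_eq
  rw [h2] at h1
  exact (Nat.not_even_iff_odd.2 h) h1

end Pool.Agent.H47.Borsuk
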