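import Pool.Agent.H47.Borsuk.Quot
import Pool.Agent.H47.Borsuk.Odd

/-!
# `n` real forms of odd degree in `n + 1` variables have a common nontrivial real zero
-/

open MvPolynomial

namespace Pool.Agent.H47.Borsuk

variable {n : ℕ}

/-- The affine system has a real solution for good parameters. -/
theorem exists_zero_defo (d : Fin n → ℕ) (hd : ∀ i, Odd (d i))
    (G : Fin n → MvPolynomial (Fin n) ℝ) (t : ℝ)
    (hb : Function.Bijective (Phi d (defo d G t))) :
    ∃ x : Fin n → ℝ, ∀ i, x i ^ d i + t * eval x (G i) = 0 := by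
  classical
  obtain ⟨e⟩ := quot_equiv d (defo d G t) (fun i => (hd i).pos) hb
  let I : Ideal (MvPolynomial (Fin n) ℝ) := Ideal.span (Set.range (defo d G t))
  have hfin : Module.Finite ℝ (MvPolynomial (Fin n) ℝ ⧸ I) := Module.Finite.equiv e.symm
  have hrank : Module.finrank ℝ (MvPolynomial (Fin n) ℝ ⧸ I) = ∏ i, d i := by
    rw [e.finrank_eq, Module.finrank_fintype_fun_eq_card, Fintype.card_pi]
    simp
  have hodd : Odd (Module.finrank ℝ (MvPolynomial (Fin n) ℝ ⧸ I)) := by
    rw [hrank]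
    exact Finset.prod_induction _ Odd (fun _ _ => Odd.mul) odd_one fun i _ => hd i
  obtain ⟨φ⟩ := exists_algHom hodd
  let ψ : MvPolynomial (Fin n) ℝ →ₐ[ℝ] ℝ := φ.comp (Ideal.Quotient.mkₐ ℝ I)
  have hψ : ∀ p, ψ p = eval (fun i => ψ (X i)) p := by
    intro p
    have h1 : ψ = aeval (fun i => ψ (X i)) := (aeval_unique ψ)
    conv_lhs => rw [h1]
    exact congrArg (fun g : MvPolynomial (Fin n) ℝ →+* ℝ => g p)
      (coe_aeval_eq_eval (fun i => ψ (X i)))
  refine ⟨fun i => ψ (X i), fun i => ?_⟩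
  have h0 : ψ (defo d G t i) = 0 := by
    change φ (Ideal.Quotient.mk I (defo d G t i)) = 0
    have hmem : defo d G t i ∈ I := Ideal.subset_span ⟨i, rfl⟩
    rw [Ideal.Quotient.eq_zero_iff_mem.2 hmem, map_zero]
  rw [hψ] at h0
  simpa [defo] using h0

/-- Dehomogenisation. -/
noncomputable def deh (f : MvPolynomial (Fin (n + 1)) ℝ) : MvPolynomial (Fin n) ℝ :=
  bind₁ (Fin.cons 1 X) f

lemma eval_deh (f : MvPolynomial (Fin (n + 1)) ℝ) (x : Fin n → ℝ) :
    eval x (deh f) = eval (Fin.cons 1 x) f := by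
  unfold deh
  have h := eval₂Hom_bind₁ (RingHom.id ℝ) x (Fin.cons 1 X) f
  have h1 : (fun i => (eval₂Hom (RingHom.id ℝ) x)
      ((Fin.cons 1 X : Fin (n + 1) → MvPolynomial (Fin n) ℝ) i)) = Fin.cons 1 x := by
    funext i
    refine Fin.cases ?_ (fun j => ?_) i
    · simp
    · simp
  rw [h1] at h
  exact h

lemma deh_totalDegree (f : MvPolynomial (Fin (n + 1)) ℝ) {m : ℕ} (hf : f.IsHomogeneous m) :
    (deh f).totalDegree ≤ m := by
  unfold deh
  rw [f.as_sum, map_sum]
  refine totalDegree_finsetSum_le fun c hc => ?_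
  rw [bind₁_monomial]
  refine (totalDegree_mul _ _).trans ?_
  rw [totalDegree_C, zero_add]
  refine (totalDegree_finsetProd _ _).trans ?_
  have h1 : ∑ i ∈ c.support, c i = m := by
    have := hf (mem_support_iff.1 hc)
    rw [← this, Finsupp.weight_apply]
    simp [Finsupp.sum]
  rw [← h1]
  refine Finset.sum_le_sum fun i _ => ?_
  refine (totalDegree_pow _ _).trans ?_
  have h2 : ((Fin.cons 1 X : Fin (n + 1) → MvPolynomial (Fin n) ℝ) i).totalDegree ≤ 1 := by
    refine Fin.cases ?_ (fun j => ?_) i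
    · simp
    · simp [totalDegree_X]
  exact (Nat.mul_le_mul_left _ h2).trans (by rw [mul_one])

lemma eval_smul_of_homog {σ : Type*} (f : MvPolynomial σ ℝ) {m : ℕ} (hf : f.IsHomogeneous m)
    (r : ℝ) (x : σ → ℝ) : eval (r • x) f = r ^ m * eval x f := by
  rw [eval_eq, eval_eq, Finset.mul_sum]
  refine Finset.sum_congr rfl fun c hc => ?_
  have h1 : ∑ i ∈ c.support, c i = m := by
    have := hf (mem_support_iff.1 hc)
    rw [← this, Finsupp.weight_apply]
    simp [Finsupp.sum]
  have h2 : ∏ i ∈ c.support, (r • x) i ^ c i = r ^ m * ∏ i ∈ c.support, x i ^ c i := by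
    rw [← h1, ← Finset.prod_pow_eq_pow_sum, ← Finset.prod_mul_distrib]
    refine Finset.prod_congr rfl fun i _ => ?_
    rw [Pi.smul_apply, smul_eq_mul, mul_pow]
  rw [h2]
  ring

/-- **Theorem.** `n` real forms of odd degree in `n + 1` variables have a common nontrivial real
zero. -/
theorem exists_zero_of_odd_forms (f : Fin n → MvPolynomial (Fin (n + 1)) ℝ) (d : Fin n → ℕ)
    (hd : ∀ i, Odd (d i)) (hf : ∀ i, (f i).IsHomogeneous (d i)) :
    ∃ x : Fin (n + 1) → ℝ, x ≠ 0 ∧ ∀ i, eval x (f i) = 0 := by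
  classical
  -- minimise the sum of absolute values on the sphere of the sup norm
  let μ : (Fin (n + 1) → ℝ) → ℝ := fun x => ∑ i, |eval x (f i)|
  have hμ : Continuous μ := continuous_finsetSum _ fun i _ => (MvPolynomial.continuous_eval _).abs
  have hne : (Metric.sphere (0 : Fin (n + 1) → ℝ) 1).Nonempty := by
    refine ⟨fun _ => 1, ?_⟩
    rw [mem_sphere_zero_iff_norm, pi_norm_const]
    simp
  obtain ⟨z, hz, hmin⟩ := (isCompact_sphere (0 : Fin (n + 1) → ℝ) 1).exists_isMinOn hne
    hμ.continuousOn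
  have hz1 : ‖z‖ = 1 := mem_sphere_zero_iff_norm.1 hz
  refine ⟨z, fun h => by rw [h, norm_zero] at hz1; exact zero_ne_one hz1, ?_⟩
  have hμ0 : 0 ≤ μ z := Finset.sum_nonneg fun i _ => abs_nonneg _
  have hkey : μ z = 0 := by
    by_contra hpos
    have hpos' : 0 < μ z := lt_of_le_of_ne hμ0 (Ne.symm hpos)
    -- a good large parameter
    obtain ⟨t, htgood, ht⟩ := ((countable_bad d (fun i => deh (f i))
      (fun i => deh_totalDegree _ (hf i))).dense_compl ℝ).exists_mem_open
      (isOpen_Ioi (a := (n + 1) / μ z)) ⟨(n + 1) / μ z + 1, by simp⟩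
    have htpos : 0 < t := lt_trans (by positivity) ht
    have hb : Function.Bijective (Phi d (defo d (fun i => deh (f i)) t)) := by
      by_contra h
      exact htgood h
    obtain ⟨x, hx⟩ := exists_zero_defo d hd _ t hb
    let y : Fin (n + 1) → ℝ := Fin.cons 1 x
    have hy0 : y ≠ 0 := fun h => by
      have := congrFun h 0
      simp [y] at this
    have hyn : 0 < ‖y‖ := norm_pos_iff.2 hy0
    let w : Fin (n + 1) → ℝ := ‖y‖⁻¹ • y
    have hw : ‖w‖ = 1 := by
      rw [norm_smul, norm_inv, norm_norm, inv_mul_cancel₀ hyn.ne']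
    have hwf : ∀ i, |eval w (f i)| ≤ 1 / t := by
      intro i
      have h1 : w i.succ ^ d i + t * eval w (f i) = 0 := by
        have h2 := hx i
        rw [eval_deh] at h2
        have h3 : w i.succ = ‖y‖⁻¹ * x i := by simp [w, y]
        rw [h3, eval_smul_of_homog (f i) (hf i), mul_pow]
        have : ‖y‖⁻¹ ^ d i * x i ^ d i + t * (‖y‖⁻¹ ^ d i * eval y (f i))
            = ‖y‖⁻¹ ^ d i * (x i ^ d i + t * eval y (f i)) := by ring
        rw [this, h2, mul_zero]
      have h2 : |w i.succ| ≤ 1 := by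
        have := norm_le_pi_norm w i.succ
        rwa [hw, Real.norm_eq_abs] at this
      have h3 : |t * eval w (f i)| ≤ 1 := by
        have : t * eval w (f i) = - w i.succ ^ d i := by linarith
        rw [this, abs_neg, abs_pow]
        exact pow_le_one₀ (abs_nonneg _) h2
      rw [abs_mul, abs_of_pos htpos] at h3
      rw [le_div_iff₀ htpos]
      linarith
    have hsum : μ w ≤ n / t := by
      calc μ w ≤ ∑ _i : Fin n, 1 / t := Finset.sum_le_sum fun i _ => hwf i
        _ = n / t := by simp [div_eq_mul_inv]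
    have hle : μ z ≤ μ w := hmin (mem_sphere_zero_iff_norm.2 hw)
    have h4 : (n + 1 : ℝ) < t * μ z := by
      have := (div_lt_iff₀ hpos').1 ht
      linarith
    have h5 : t * μ z ≤ n := by
      have := hle.trans hsum
      rw [le_div_iff₀ htpos] at this
      linarith
    linarith
  intro i
  have := (Finset.sum_eq_zero_iff_of_nonneg fun i _ => abs_nonneg (eval z (f i))).1 hkey i
    (Finset.mem_univ i)
  exact abs_eq_zero.1 this

end Pool.Agent.H47.Borsuk
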