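import Pool.Agent.H47.Borsuk.Alg

open MvPolynomial

namespace Pool.Agent.H47.Borsuk

variable {n : ℕ}

section

variable {K : Type*} [Field K] (d : Fin n → ℕ) (F : Fin n → MvPolynomial (Fin n) K)

lemma tw_add_single (hd : ∀ i, 0 < d i) (c : Fin n →₀ ℕ) (i : Fin n) :
    tw d F (c + Finsupp.single i (d i)) = F i * tw d F c := by
  classical
  have h1 : ∀ j, (X j ^ ((c + Finsupp.single i (d i)) j % d j)
        * F j ^ ((c + Finsupp.single i (d i)) j / d j) : MvPolynomial (Fin n) K)
      = (if j = i then F i else 1) * (X j ^ (c j % d j) * F j ^ (c j / d j)) := by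
    intro j
    by_cases h : j = i
    · subst h
      rw [if_pos rfl, Finsupp.add_apply, Finsupp.single_eq_same, Nat.add_mod_right,
        Nat.add_div_right _ (hd j), pow_succ]
      ring
    · rw [if_neg h, Finsupp.add_apply, Finsupp.single_eq_of_ne h, add_zero, one_mul]
  unfold tw
  rw [Finset.prod_congr rfl fun j _ => h1 j, Finset.prod_mul_distrib]
  simp

lemma Phi_mul_pow (hd : ∀ i, 0 < d i) (p : MvPolynomial (Fin n) K) (i : Fin n) :
    Phi d F (X i ^ d i * p) = F i * Phi d F p := by
  induction p using MvPolynomial.induction_on' with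
  | monomial c a =>
    have h : (X i : MvPolynomial (Fin n) K) ^ d i * monomial c a
        = monomial (c + Finsupp.single i (d i)) a := by
      rw [X_pow_eq_monomial, monomial_mul, one_mul, add_comm]
    rw [h, Phi_monomial, Phi_monomial, tw_add_single d F hd, mul_smul_comm]
  | add p q hp hq => rw [mul_add, map_add, map_add, hp, hq, mul_add]

lemma map_mem (hd : ∀ i, 0 < d i) {p : MvPolynomial (Fin n) K}
    (hp : p ∈ Ideal.span (Set.range fun i => (X i : MvPolynomial (Fin n) K) ^ d i)) :
    Phi d F p ∈ Ideal.span (Set.range F) := by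
  rw [Ideal.mem_span_range_iff_exists_fun] at hp
  obtain ⟨c, rfl⟩ := hp
  rw [map_sum]
  refine Ideal.sum_mem _ fun i _ => ?_
  rw [mul_comm, Phi_mul_pow d F hd]
  exact Ideal.mul_mem_right _ _ (Ideal.subset_span ⟨i, rfl⟩)

lemma exists_of_mem (hd : ∀ i, 0 < d i) (hs : Function.Surjective (Phi d F))
    {p : MvPolynomial (Fin n) K} (hp : p ∈ Ideal.span (Set.range F)) :
    ∃ r ∈ Ideal.span (Set.range fun i => (X i : MvPolynomial (Fin n) K) ^ d i),
      Phi d F r = p := by
  rw [Ideal.mem_span_range_iff_exists_fun] at hp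
  obtain ⟨c, rfl⟩ := hp
  choose r hr using fun i => hs (c i)
  refine ⟨∑ i, X i ^ d i * r i, ?_, ?_⟩
  · exact Ideal.sum_mem _ fun i _ => Ideal.mul_mem_right _ _ (Ideal.subset_span ⟨i, rfl⟩)
  · rw [map_sum]
    refine Finset.sum_congr rfl fun i _ => ?_
    rw [Phi_mul_pow d F hd, hr, mul_comm]

/-- An exponent in the box. -/
noncomputable def bx (a : ∀ i, Fin (d i)) : Fin n →₀ ℕ :=
  Finsupp.equivFunOnFinite.symm fun i => (a i : ℕ)

lemma bx_apply (a : ∀ i, Fin (d i)) (i : Fin n) : bx d a i = a i := rfl

lemma bx_injective : Function.Injective (bx d) := by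
  intro a b h
  funext i
  apply Fin.ext
  rw [← bx_apply, ← bx_apply, h]

lemma mem_span_pow_iff (p : MvPolynomial (Fin n) K) :
    p ∈ Ideal.span (Set.range fun i => (X i : MvPolynomial (Fin n) K) ^ d i) ↔
      ∀ a : ∀ i, Fin (d i), coeff (bx d a) p = 0 := by
  have h1 : (Set.range fun i => (X i : MvPolynomial (Fin n) K) ^ d i)
      = (fun s => monomial s (1 : K)) '' (Set.range fun i => Finsupp.single i (d i)) := by
    rw [← Set.range_comp]
    congr 1
    funext i
    exact X_pow_eq_monomial
  rw [h1, mem_ideal_span_monomial_image]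
  constructor
  · intro h a
    by_contra hne
    obtain ⟨s, ⟨i, rfl⟩, hs⟩ := h _ (mem_support_iff.2 hne)
    have := hs i
    simp only [Finsupp.single_eq_same, bx_apply] at this
    exact absurd (a i).2 (not_lt.2 this)
  · intro h m hm
    by_contra hne
    push Not at hne
    have h2 : ∀ i, m i < d i := by
      intro i
      by_contra hi
      apply hne _ ⟨i, rfl⟩
      intro j
      by_cases hj : j = i
      · subst hj; simpa using not_lt.1 hi
      · rw [Finsupp.single_eq_of_ne hj]; exact Nat.zero_le _
    have h3 : bx d (fun i => ⟨m i, h2 i⟩) = m := by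
      ext i; rfl
    have h4 := h fun i => ⟨m i, h2 i⟩
    rw [h3] at h4
    exact mem_support_iff.1 hm h4

/-- The dimension of the quotient. -/
theorem quot_equiv (hd : ∀ i, 0 < d i) (hb : Function.Bijective (Phi d F)) :
    Nonempty ((MvPolynomial (Fin n) K ⧸ Ideal.span (Set.range F)) ≃ₗ[K]
      ((∀ i, Fin (d i)) → K)) := by
  classical
  let e : MvPolynomial (Fin n) K ≃ₗ[K] MvPolynomial (Fin n) K := LinearEquiv.ofBijective _ hb
  have he : ∀ p, e p = Phi d F p := fun p => rfl
  let q : MvPolynomial (Fin n) K →ₗ[K] ((∀ i, Fin (d i)) → K) :=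
    LinearMap.pi fun a => (lcoeff K (bx d a)).comp e.symm.toLinearMap
  have hq : ∀ p a, q p a = coeff (bx d a) (e.symm p) := fun p a => rfl
  have hker : (Ideal.span (Set.range F)).restrictScalars K = LinearMap.ker q := by
    ext p
    rw [Submodule.restrictScalars_mem, LinearMap.mem_ker]
    have h1 : q p = 0 ↔ e.symm p ∈
        Ideal.span (Set.range fun i => (X i : MvPolynomial (Fin n) K) ^ d i) := by
      rw [mem_span_pow_iff]
      constructor
      · intro h a
        rw [← hq, h]; rfl
      · intro h
        funext a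
        rw [hq, h a]; rfl
    rw [h1]
    constructor
    · intro hp
      obtain ⟨r, hr, hrp⟩ := exists_of_mem d F hd hb.2 hp
      have : e.symm p = r := by
        rw [LinearEquiv.symm_apply_eq]
        exact hrp.symm
      rw [this]
      exact hr
    · intro hp
      have := map_mem d F hd hp
      rwa [← he, LinearEquiv.apply_symm_apply] at this
  have hsurj : Function.Surjective q := by
    intro g
    refine ⟨e (∑ a, monomial (bx d a) (g a)), ?_⟩
    funext a
    rw [hq, LinearEquiv.symm_apply_apply, coeff_sum]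
    simp only [coeff_monomial]
    rw [Finset.sum_eq_single a]
    · simp
    · intro b _ hb
      rw [if_neg fun h => hb (bx_injective d h)]
    · intro h; exact absurd (Finset.mem_univ a) h
  refine ⟨(Submodule.Quotient.restrictScalarsEquiv K (Ideal.span (Set.range F))).symm ≪≫ₗ
    Submodule.quotEquivOfEq _ _ hker ≪≫ₗ LinearMap.quotKerEquivOfSurjective q hsurj⟩

end

end Pool.Agent.H47.Borsuk
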